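import Mathlib
import Pool.Agent.Lib.MP_f30851_co.Four

/-! The maximal probability of a non-zero residue class for the sum of `n` identical dice. -/

namespace Pool.Agent.Results.MP_f30851_co.MaxProb

open Finset

/-- The probability that the sum of `n` independent tosses of a die with `m` equally likely faces,
labelled by the integers `a c`, is congruent to `k` modulo `n`. -/
noncomputable def diceProb (n k m : ℕ) (a : Fin m → ℤ) : ℝ :=
  ((univ.filter fun w : Fin n → Fin m => (∑ i, a (w i)) ≡ (k : ℤ) [ZMOD (n : ℤ)]).card : ℝ) /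
    (m : ℝ) ^ n

/-- The probability that a binomial variable with parameters `n`, `t` is congruent to `1`
modulo `d`. -/
noncomputable def binomOne (n d : ℕ) (t : ℝ) : ℝ :=
  ∑ j ∈ (range (n + 1)).filter (fun j => j % d = 1), (n.choose j : ℝ) * t ^ j * (1 - t) ^ (n - j)

open Pool.Agent.Lib.MP_f30851_co in
theorem result (n k : ℕ) (hn : 2 ≤ n) (hk : 1 ≤ k) (hkn : k < n) :
    ∃ M : ℝ,
      IsLUB {x : ℝ | ∃ m : ℕ, 2 ≤ m ∧ ∃ a : Fin m → ℤ, x = diceProb n k m a} M ∧
      IsGreatest (binomOne n (n / Nat.gcd n k) '' Set.Icc 0 1) M ∧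
      (Nat.gcd n k = 1 → M = (1 - 1 / (n : ℝ)) ^ (n - 1)) ∧
      (2 * k = n → M = 1 / 2) ∧
      (n / Nat.gcd n k = 3 → M = 1 / 3 +
        1 / (3 * (2 * Real.cos (((n : ℝ) - 2) * Real.pi / (3 * ((n : ℝ) - 1)))) ^ (n - 1))) ∧
      (4 ≤ n / Nat.gcd n k → ∃ t : ℝ,
        IsLeast {s : ℝ | 0 < s ∧ deriv (binomOne n (n / Nat.gcd n k)) s = 0} t ∧
          M = binomOne n (n / Nat.gcd n k) t) := by
  have : NeZero n := ⟨by omega⟩
  have hG : ∀ x : ZMod n, n • x = 0 := fun x => by simp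
  have hk0 : (k : ZMod n) ≠ 0 := by
    rw [Ne, ZMod.natCast_eq_zero_iff]
    exact Nat.not_dvd_of_pos_of_lt hk hkn
  have hd : addOrderOf (k : ZMod n) = n / Nat.gcd n k := ZMod.addOrderOf_coe k (by omega)
  obtain ⟨t, ht, hmax, hhalf⟩ := exists_max hn hG hk0
  rw [hd] at hmax hhalf
  have hdice : ∀ (m : ℕ) (a : Fin m → ℤ),
      diceProb n k m a = val (dieVec fun c => (a c : ZMod n)) n k := by
    intro m a
    rw [val_dieVec, diceProb]
    congr 3
    apply filter_congr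
    intro w _
    rw [← ZMod.intCast_eq_intCast_iff, Int.cast_sum, Int.cast_natCast]
  have hgr : ∀ s ∈ Set.Icc (0 : ℝ) 1,
      resOne n (n / Nat.gcd n k) s ≤ resOne n (n / Nat.gcd n k) t := by
    intro s hs
    have := hmax _ (twoPt_mem (k : ZMod n) hs.1 hs.2)
    rwa [val_twoPt hG hk0, hd] at this
  refine ⟨resOne n (n / Nat.gcd n k) t, ⟨?_, ?_⟩, ⟨⟨t, ht, rfl⟩, ?_⟩, ?_, ?_, ?_, ?_⟩
  · rintro x ⟨m, hm, a, rfl⟩
    rw [hdice]
    exact hmax _ (dieVec_mem (by omega) _)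
  · intro u hu
    refine le_of_forall_rat (continuous_resOne n _) ?_ ht.1 ht.2
    intro m s hm hs
    apply hu
    refine ⟨m, hm, fun c => if (c : ℕ) < s then (k : ℤ) else 0, ?_⟩
    rw [hdice, ← hd, ← val_twoPt hG hk0]
    unfold Pool.Agent.Lib.MP_f30851_co.val
    rw [← dieVec_twoPt (by omega) hs]
    congr 5
    funext c
    split_ifs <;> simp
  · rintro x ⟨s, hs, rfl⟩
    exact hgr s hs
  · intro h1
    rw [h1, Nat.div_one] at hgr ⊢
    have h2 : (1 : ℝ) ≤ n := by exact_mod_cast (by omega : 1 ≤ n)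
    apply le_antisymm
    · rw [resOne_self n hn]
      exact bw_one_le n hn ht.2
    · rw [← bw_one_inv n hn, ← resOne_self n hn]
      exact hgr _ ⟨by positivity, by rw [div_le_one (by positivity)]; exact h2⟩
  · intro h1
    have h2 : n / Nat.gcd n k = 2 := by
      rw [← h1, Nat.gcd_mul_left_left, Nat.mul_div_cancel _ hk]
    rw [h2] at hgr hhalf ⊢
    apply le_antisymm hhalf
    rw [← resOne_two n (by omega)]
    exact hgr _ ⟨by norm_num, by norm_num⟩
  · intro h1
    have h2 := three_max hn (h1 ▸ Nat.div_dvd_of_dvd (Nat.gcd_dvd_left n k))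
    rw [h1] at hgr ⊢
    obtain ⟨s, hs, e⟩ := h2.1
    exact le_antisymm (h2.2 ⟨t, ht, rfl⟩) (e ▸ hgr s hs)
  · intro h1
    refine ⟨t, ?_, rfl⟩
    have h2 := four_max h1 (Nat.gcd_pos_of_pos_right n hk) ht
    rw [Nat.div_mul_cancel (Nat.gcd_dvd_left n k)] at h2
    exact h2 hgr

end Pool.Agent.Results.MP_f30851_co.MaxProb
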